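import Mathlib
import Pool.Agent.Results.MP_7489fb_co.TernaryLowerBound

set_option autoImplicit false

/-!
# Moment functionals for double covers of `[3]^d`
-/

namespace Pool.Agent.R182.TernarySmall

open scoped Polynomial
open Pool.Agent.Results.MP_7489fb_co.AsymptoticUpperBound
open Pool.Agent.Results.MP_7489fb_co.ATwoSided
open Pool.Agent.Results.MP_7489fb_co.LowerAllN
open Pool.Agent.Results.MP_7489fb_co.DistinctMembers
open Pool.Agent.Results.MP_7489fb_co.TernaryLowerBound

/-- weights of the functionals -/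
noncomputable def cw (w : Bool × Fin 3) : ℝ[X] := if w.1 then Polynomial.X else 3

/-- weight of the odd values -/
noncomputable def qo (A : Finset (Fin 3)) : ℝ[X] :=
  if A.card = 2 then 6 else 3 * (1 + Polynomial.X)

/-- weight of the value two -/
noncomputable def qw (A : Finset (Fin 3)) : ℝ[X] := if A.card = 2 then Polynomial.X else 0

lemma cw_od (A : Finset (Fin 3)) (h1 : A.Nonempty) (h2 : A ≠ Finset.univ) :
    ∑ w : Bool × Fin 3, cw w * (od (ev (fn w) A) : ℝ[X]) = qo A := by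
  rw [Fintype.sum_prod_type, Fintype.sum_bool]
  have e1 : ∑ a : Fin 3, cw (true, a) * (od (ev (fn (true, a)) A) : ℝ[X]) =
      Polynomial.X * ((∑ a : Fin 3, od (ev (st a) A) : ℕ) : ℝ[X]) := by
    push_cast
    rw [Finset.mul_sum]
    rfl
  have e2 : ∑ a : Fin 3, cw (false, a) * (od (ev (fn (false, a)) A) : ℝ[X]) =
      3 * ((∑ a : Fin 3, od (ev (pt a) A) : ℕ) : ℝ[X]) := by
    push_cast
    rw [Finset.mul_sum]
    rfl
  rw [e1, e2, od_st A h1 h2, od_pt]
  unfold qo
  by_cases h : A.card = 2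
  · rw [if_pos h, if_pos h, h]; push_cast; ring
  · rw [if_neg h, if_neg h, card_one A h1 h2 h]; push_cast; ring

lemma cw_tw (A : Finset (Fin 3)) (h1 : A.Nonempty) (h2 : A ≠ Finset.univ) :
    ∑ w : Bool × Fin 3, cw w * (tw (ev (fn w) A) : ℝ[X]) = qw A := by
  rw [Fintype.sum_prod_type, Fintype.sum_bool]
  have e1 : ∑ a : Fin 3, cw (true, a) * (tw (ev (fn (true, a)) A) : ℝ[X]) =
      Polynomial.X * ((∑ a : Fin 3, tw (ev (st a) A) : ℕ) : ℝ[X]) := by
    push_cast
    rw [Finset.mul_sum]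
    rfl
  have e2 : ∑ a : Fin 3, cw (false, a) * (tw (ev (fn (false, a)) A) : ℝ[X]) = 0 := by
    apply Finset.sum_eq_zero
    intro a _
    have : tw (ev (fn (false, a)) A) = 0 := tw_pt A a
    rw [this]; simp
  rw [e1, e2, tw_st A h1 h2]
  unfold qw
  by_cases h : A.card = 2
  · rw [if_pos h, if_pos h]; push_cast; ring
  · rw [if_neg h, if_neg h]; push_cast; ring

lemma cw_sum : ∑ w : Bool × Fin 3, cw w = 3 * (2 + (1 + Polynomial.X)) := by
  rw [Fintype.sum_prod_type, Fintype.sum_bool]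
  simp only [cw]
  simp
  ring

variable {d : ℕ}

/-- weight of a product functional -/
noncomputable def V (T : Fin d → Bool × Fin 3) : ℝ[X] := ∏ i, cw (T i)

lemma V_prod (f : Fin d → (Bool × Fin 3) → ℝ[X]) :
    ∑ T : Fin d → Bool × Fin 3, V T * ∏ i, f i (T i) =
      ∏ i, ∑ w : Bool × Fin 3, cw w * f i w := by
  rw [Finset.prod_univ_sum, Fintype.piFinset_univ]
  apply Finset.sum_congr rfl
  intro T _
  unfold V
  rw [Finset.prod_mul_distrib]

lemma V_sum : ∑ T : Fin d → Bool × Fin 3, V T = 3 ^ d * (2 + (1 + Polynomial.X)) ^ d := by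
  have h := V_prod (d := d) (fun _ _ => 1)
  simp only [Finset.prod_const_one, mul_one] at h
  rw [h, cw_sum, Finset.prod_const, Finset.card_univ, Fintype.card_fin, mul_pow]

lemma V_multiset {α : Type*} (F : Multiset α) (f : (Fin d → Bool × Fin 3) → α → ℝ[X]) :
    ∑ T : Fin d → Bool × Fin 3, V T * (F.map (f T)).sum =
      (F.map (fun B => ∑ T : Fin d → Bool × Fin 3, V T * f T B)).sum := by
  induction F using Multiset.induction_on with
  | empty => simp
  | cons a s ih =>
    simp only [Multiset.map_cons, Multiset.sum_cons, mul_add, Finset.sum_add_distrib]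
    rw [ih]

lemma V_S (F : Multiset (Box 3 d)) (hF : ∀ B ∈ F, Proper B) :
    ∑ T : Fin d → Bool × Fin 3, V T * (S F (fun i => fn (T i)) : ℝ[X]) =
      (F.map (fun B => ∏ i, qo (B i))).sum := by
  have h1 : ∀ T : Fin d → Bool × Fin 3, (S F (fun i => fn (T i)) : ℝ[X]) =
      (F.map (fun B : Box 3 d => ∏ i, (od (ev (fn (T i)) (B i)) : ℝ[X]))).sum := by
    intro T
    unfold S
    rw [Nat.cast_multiset_sum, Multiset.map_map]
    congr 1
    apply Multiset.map_congr rfl
    intro B _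
    simp [Function.comp]
  rw [Finset.sum_congr rfl (fun T _ => by rw [h1 T]), V_multiset]
  congr 1
  apply Multiset.map_congr rfl
  intro B hB
  rw [V_prod (fun i w => (od (ev (fn w) (B i)) : ℝ[X]))]
  apply Finset.prod_congr rfl
  intro i _
  exact cw_od (B i) (hF B hB i).1 (hF B hB i).2

lemma V_C (F : Multiset (Box 3 d)) (hF : ∀ B ∈ F, Proper B) (i : Fin d) :
    ∑ T : Fin d → Bool × Fin 3, V T * (C F (fun j => fn (T j)) i : ℝ[X]) =
      (F.map (fun B => qw (B i) * ∏ j ∈ Finset.univ.erase i, qo (B j))).sum := by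
  classical
  have h1 : ∀ T : Fin d → Bool × Fin 3, (C F (fun i => fn (T i)) i : ℝ[X]) =
      (F.map (fun B : Box 3 d => ∏ j, (if j = i then (tw (ev (fn (T j)) (B j)) : ℝ[X]) else
        (od (ev (fn (T j)) (B j)) : ℝ[X])))).sum := by
    intro T
    unfold C
    rw [Nat.cast_multiset_sum, Multiset.map_map]
    congr 1
    apply Multiset.map_congr rfl
    intro B _
    rw [← Finset.mul_prod_erase Finset.univ _ (Finset.mem_univ i), if_pos rfl]
    simp only [Function.comp]
    push_cast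
    congr 1
    apply Finset.prod_congr rfl
    intro j hj
    rw [if_neg (Finset.ne_of_mem_erase hj)]
  rw [Finset.sum_congr rfl (fun T _ => by rw [h1 T]), V_multiset]
  congr 1
  apply Multiset.map_congr rfl
  intro B hB
  rw [V_prod (fun j w => if j = i then (tw (ev (fn w) (B j)) : ℝ[X]) else
    (od (ev (fn w) (B j)) : ℝ[X])), ← Finset.mul_prod_erase Finset.univ _ (Finset.mem_univ i)]
  congr 1
  · simp only [if_true]
    exact cw_tw (B i) (hF B hB i).1 (hF B hB i).2
  · apply Finset.prod_congr rfl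
    intro j hj
    simp only [if_neg (Finset.ne_of_mem_erase hj)]
    exact cw_od (B j) (hF B hB j).1 (hF B hB j).2

/-- the value of a box -/
noncomputable def Q (B : Box 3 d) : ℝ[X] :=
  ∏ i, qo (B i) + 2 * ∑ i, qw (B i) * ∏ j ∈ Finset.univ.erase i, qo (B j)

/-- the number of sides with two elements -/
noncomputable def pairs (B : Box 3 d) : ℕ :=
  (Finset.univ.filter (fun i => (B i).card = 2)).card

lemma pairs_le (B : Box 3 d) : pairs B ≤ d :=
  (Finset.card_le_univ _).trans_eq (Fintype.card_fin d)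

lemma prod_qo (B : Box 3 d) :
    ∏ i, qo (B i) = 3 ^ d * (2 ^ pairs B * (1 + Polynomial.X) ^ (d - pairs B)) := by
  classical
  unfold qo
  rw [Finset.prod_ite, Finset.prod_const, Finset.prod_const]
  have h1 : (Finset.univ.filter (fun i => ¬ (B i).card = 2)).card = d - pairs B := by
    have := Finset.card_filter_add_card_filter_not (s := (Finset.univ : Finset (Fin d)))
      (fun i => (B i).card = 2)
    rw [Finset.card_univ, Fintype.card_fin] at this
    unfold pairs
    omega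
  have h2 : (Finset.univ.filter (fun i => (B i).card = 2)).card = pairs B := rfl
  rw [h1, h2, mul_pow]
  have h3 : (3 : ℝ[X]) ^ d = 3 ^ pairs B * 3 ^ (d - pairs B) := by
    rw [← pow_add, Nat.add_sub_cancel' (pairs_le B)]
  rw [h3, show (6 : ℝ[X]) = 3 * 2 by norm_num, mul_pow]
  ring

lemma Q_eq (B : Box 3 d) :
    3 * Q B = 3 ^ d * (2 ^ pairs B * ((1 + Polynomial.X) ^ (d - pairs B) *
      (3 + (pairs B : ℝ[X]) * Polynomial.X))) := by
  classical
  have h1 : ∀ i, 6 * (qw (B i) * ∏ j ∈ Finset.univ.erase i, qo (B j)) =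
      (if (B i).card = 2 then 1 else 0) * (Polynomial.X * ∏ j, qo (B j)) := by
    intro i
    rw [← Finset.mul_prod_erase Finset.univ (fun j => qo (B j)) (Finset.mem_univ i)]
    unfold qw
    split_ifs with h
    · have : qo (B i) = 6 := by unfold qo; rw [if_pos h]
      rw [this]
      ring
    · simp
  have h2 : 6 * ∑ i, qw (B i) * ∏ j ∈ Finset.univ.erase i, qo (B j) =
      (pairs B : ℝ[X]) * (Polynomial.X * ∏ j, qo (B j)) := by
    rw [Finset.mul_sum, Finset.sum_congr rfl (fun i _ => h1 i), ← Finset.sum_mul,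
      Finset.sum_boole]
    rfl
  have h3 : 3 * Q B = 3 * ∏ j, qo (B j) + 6 * ∑ i, qw (B i) *
      ∏ j ∈ Finset.univ.erase i, qo (B j) := by
    unfold Q
    ring
  rw [h3, h2, prod_qo]
  ring

/-- moments -/
noncomputable def E (d : ℕ) : ℕ → ℝ
  | 0 => 1
  | (j + 1) => (3 + ((j : ℝ) - 3) * E d j) / ((d : ℝ) - j)

lemma E_rec {j : ℕ} (h : j < d) :
    ((d : ℝ) - j) * E d (j + 1) + (3 - (j : ℝ)) * E d j = 3 := by
  have h1 : (0 : ℝ) < (d : ℝ) - j := by
    have : (j : ℝ) < d := by exact_mod_cast h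
    linarith
  rw [E]
  field_simp
  ring

lemma E_nonneg : ∀ j ≤ d, 0 ≤ E d j := by
  have e0 : E d 0 = 1 := rfl
  have e1 : E d 1 = 0 := by
    rw [E, e0]; simp
  have e2 : E d 2 = 3 / ((d : ℝ) - 1) := by
    rw [E, e1]; simp
  have big : ∀ k, k + 3 ≤ d → 0 ≤ E d (k + 3) := by
    intro k
    induction k with
    | zero =>
      intro h
      have h' : (3 : ℝ) ≤ d := by exact_mod_cast h
      show 0 ≤ E d (2 + 1)
      rw [E, e2]
      apply div_nonneg
      · have : 3 / ((d : ℝ) - 1) ≤ 3 := by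
          rw [div_le_iff₀ (by linarith)]
          linarith
        push_cast
        linarith
      · push_cast
        linarith
    | succ k ih =>
      intro h
      have h' : ((k : ℝ) + 4) ≤ d := by exact_mod_cast h
      have h1 := ih (by omega)
      show 0 ≤ E d ((k + 3) + 1)
      rw [E]
      apply div_nonneg
      · push_cast
        have : 0 ≤ ((k : ℝ) + 3 - 3) * E d (k + 3) := mul_nonneg (by
          have : (0 : ℝ) ≤ k := Nat.cast_nonneg k
          linarith) h1
        linarith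
      · push_cast
        linarith
  intro j hj
  match j, hj with
  | 0, _ => rw [e0]; norm_num
  | 1, _ => rw [e1]
  | 2, h =>
    rw [e2]
    have h' : (2 : ℝ) ≤ d := by exact_mod_cast h
    apply div_nonneg <;> linarith
  | (k + 3), h => exact big k h

/-- the moment functional -/
noncomputable def L (d : ℕ) : ℝ[X] →ₗ[ℝ] ℝ :=
  ∑ j ∈ Finset.range (d + 1), E d j • Polynomial.lcoeff ℝ j

lemma L_X {k : ℕ} (h : k ≤ d) : L d (Polynomial.X ^ k) = E d k := by
  unfold L
  rw [LinearMap.sum_apply]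
  simp only [LinearMap.smul_apply, Polynomial.lcoeff_apply, Polynomial.coeff_X_pow,
    smul_eq_mul]
  rw [Finset.sum_eq_single k]
  · simp
  · intro b _ hb
    rw [if_neg hb]
    simp
  · intro hk
    exact absurd (Finset.mem_range.2 (by omega)) hk

/-- scalars -/
lemma L_nat (n : ℕ) (p : ℝ[X]) : L d ((n : ℝ[X]) * p) = n * L d p := by
  rw [← nsmul_eq_mul, map_nsmul, nsmul_eq_mul]

lemma L_V_nonneg (T : Fin d → Bool × Fin 3) : 0 ≤ L d (V T) := by
  classical
  unfold V cw
  rw [Finset.prod_ite, Finset.prod_const, Finset.prod_const]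
  have h1 : (3 : ℝ[X]) ^ (Finset.univ.filter (fun i => ¬ (T i).1 = true)).card =
      ((3 ^ (Finset.univ.filter (fun i => ¬ (T i).1 = true)).card : ℕ) : ℝ[X]) := by
    push_cast
    rfl
  rw [h1, mul_comm, L_nat, L_X ((Finset.card_le_univ _).trans_eq (Fintype.card_fin d))]
  exact mul_nonneg (Nat.cast_nonneg _)
    (E_nonneg _ ((Finset.card_le_univ _).trans_eq (Fintype.card_fin d)))

/-- the differential operator -/
noncomputable def D (d : ℕ) : ℝ[X] →ₗ[ℝ] ℝ[X] :=
  LinearMap.mulLeft ℝ ((d : ℝ[X]) * Polynomial.X + 3) -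
    (LinearMap.mulLeft ℝ ((Polynomial.X : ℝ[X]) ^ 2 + Polynomial.X)) ∘ₗ Polynomial.derivative

lemma D_apply (p : ℝ[X]) : D d p = ((d : ℝ[X]) * Polynomial.X + 3) * p -
    (Polynomial.X ^ 2 + Polynomial.X) * Polynomial.derivative p := rfl

lemma L_D_X {j : ℕ} (h : j < d) : L d (D d (Polynomial.X ^ j)) = 3 := by
  have h1 : D d (Polynomial.X ^ j) = (d : ℝ[X]) * Polynomial.X ^ (j + 1) +
      ((3 : ℕ) : ℝ[X]) * Polynomial.X ^ j - ((j : ℝ[X]) * Polynomial.X ^ (j + 1) +
      (j : ℝ[X]) * Polynomial.X ^ j) := by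
    rw [D_apply]
    cases j with
    | zero => simp
    | succ k =>
      rw [Polynomial.derivative_X_pow]
      simp only [Nat.add_sub_cancel, Polynomial.C_eq_natCast]
      push_cast
      ring
  rw [h1, map_sub, map_add, map_add, L_nat, L_nat, L_nat, L_nat, L_X h, L_X h.le]
  have := E_rec h
  push_cast
  linarith

lemma L_D {n : ℕ} (h : n < d) : L d (D d ((1 + Polynomial.X) ^ n)) = 3 * 2 ^ n := by
  have h1 : (1 + Polynomial.X : ℝ[X]) ^ n =
      ∑ m ∈ Finset.range (n + 1), (n.choose m) • (Polynomial.X : ℝ[X]) ^ m := by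
    rw [add_comm, add_pow]
    apply Finset.sum_congr rfl
    intro m _
    rw [one_pow, mul_one, nsmul_eq_mul, mul_comm]
  rw [h1, map_sum, map_sum]
  have h2 : ∀ m ∈ Finset.range (n + 1),
      L d (D d ((n.choose m) • (Polynomial.X : ℝ[X]) ^ m)) = (n.choose m : ℝ) * 3 := by
    intro m hm
    rw [map_nsmul, map_nsmul, L_D_X (by have := Finset.mem_range.1 hm; omega), nsmul_eq_mul]
  rw [Finset.sum_congr rfl h2, ← Finset.sum_mul]
  have h3 := Nat.sum_range_choose n
  have h4 : (∑ m ∈ Finset.range (n + 1), (n.choose m : ℝ)) = 2 ^ n := by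
    exact_mod_cast h3
  rw [h4]
  ring

lemma D_pow (n : ℕ) : D d ((1 + Polynomial.X) ^ n) =
    (1 + Polynomial.X) ^ n * (3 + ((d : ℝ[X]) - (n : ℝ[X])) * Polynomial.X) := by
  rw [D_apply]
  cases n with
  | zero => simp; ring
  | succ k =>
    rw [Polynomial.derivative_pow]
    simp only [Nat.add_sub_cancel, Polynomial.C_eq_natCast, Polynomial.derivative_add,
      Polynomial.derivative_one, Polynomial.derivative_X, zero_add, mul_one]
    push_cast
    ring

lemma L_box {k : ℕ} (h1 : 1 ≤ k) (h2 : k ≤ d) :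
    L d (((1 + Polynomial.X) ^ (d - k) * (3 + (k : ℝ[X]) * Polynomial.X))) =
      3 * 2 ^ (d - k) := by
  have h3 := L_D (d := d) (n := d - k) (by omega)
  rw [D_pow] at h3
  have h4 : (d : ℝ[X]) - ((d - k : ℕ) : ℝ[X]) = k := by
    rw [Nat.cast_sub h2]
    ring
  rw [h4] at h3
  exact h3

/-- the normalised moments -/
noncomputable def mom (d : ℕ) (k : ℕ) : ℝ := 2 ^ k * L d ((1 + Polynomial.X) ^ (d - k)) / 2 ^ d

lemma mom_top : mom d d = 1 := by
  unfold mom
  rw [Nat.sub_self, pow_zero]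
  have h : L d (1 : ℝ[X]) = 1 := by
    have := L_X (d := d) (k := 0) (Nat.zero_le d)
    rw [pow_zero] at this
    exact this
  rw [h]
  field_simp

lemma mom_rec {k : ℕ} (h1 : 1 ≤ k) (h2 : k ≤ d) :
    2 * k * mom d (k - 1) = 3 + ((k : ℝ) - 3) * mom d k := by
  have h3 := L_box h1 h2
  obtain ⟨e, rfl⟩ : ∃ e, k = e + 1 := ⟨k - 1, by omega⟩
  have h4 : d - e = (d - (e + 1)) + 1 := by omega
  have h5 : (1 + Polynomial.X : ℝ[X]) ^ (d - (e + 1)) *
      (3 + ((e + 1 : ℕ) : ℝ[X]) * Polynomial.X) =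
      ((e + 1 : ℕ) : ℝ[X]) * (1 + Polynomial.X) ^ (d - e) +
      (((3 : ℕ) : ℝ[X]) * (1 + Polynomial.X) ^ (d - (e + 1)) -
        ((e + 1 : ℕ) : ℝ[X]) * (1 + Polynomial.X) ^ (d - (e + 1))) := by
    rw [h4, pow_succ]
    push_cast
    ring
  rw [h5, map_add, map_sub, L_nat, L_nat, L_nat] at h3
  unfold mom
  rw [Nat.add_sub_cancel]
  have h6 : (2 : ℝ) ^ d = 2 ^ (d - (e + 1)) * 2 ^ (e + 1) := by
    rw [← pow_add]
    congr 1
    omega
  have h7 : (0 : ℝ) < 2 ^ d := by positivity
  have h8 : (2 : ℝ) ^ (e + 1) * (((e + 1 : ℕ) : ℝ) * L d ((1 + Polynomial.X) ^ (d - e)) +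
      (((3 : ℕ) : ℝ) * L d ((1 + Polynomial.X) ^ (d - (e + 1))) -
        ((e + 1 : ℕ) : ℝ) * L d ((1 + Polynomial.X) ^ (d - (e + 1))))) = 3 * 2 ^ d := by
    rw [h3, h6]
    ring
  field_simp
  have h9 : (2 : ℝ) ^ (e + 1) = 2 ^ e * 2 := pow_succ _ _
  rw [h9] at h8 ⊢
  push_cast at h8 ⊢
  linear_combination h8

lemma mom_zero (hd : 1 ≤ d) : mom d 0 ≤ 1 := by
  have h0 : mom d d = 1 := mom_top
  rcases Nat.lt_or_ge d 3 with h | h
  · interval_cases d
    · have := mom_rec (d := 1) (k := 1) le_rfl le_rfl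
      norm_num at this
      linarith
    · have a := mom_rec (d := 2) (k := 1) le_rfl (by norm_num)
      have b := mom_rec (d := 2) (k := 2) (by norm_num) le_rfl
      norm_num at a b
      linarith
  · have a := mom_rec (d := d) (k := 1) le_rfl (by omega)
    have b := mom_rec (d := d) (k := 2) (by norm_num) (by omega)
    have c := mom_rec (d := d) (k := 3) (by norm_num) h
    norm_num at a b c
    linarith

lemma L_Q (hd : 1 ≤ d) (B : Box 3 d) : L d (Q B) ≤ 6 ^ d := by
  have h1 : 3 * L d (Q B) = L d (3 * Q B) := by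
    have := L_nat (d := d) 3 (Q B)
    push_cast at this
    exact this.symm
  have h2 : L d (3 * Q B) = 3 ^ d * (2 ^ pairs B * L d ((1 + Polynomial.X) ^ (d - pairs B) *
      (3 + (pairs B : ℝ[X]) * Polynomial.X))) := by
    rw [Q_eq]
    have e1 : (3 : ℝ[X]) ^ d = ((3 ^ d : ℕ) : ℝ[X]) := by push_cast; rfl
    have e2 : (2 : ℝ[X]) ^ pairs B = ((2 ^ pairs B : ℕ) : ℝ[X]) := by push_cast; rfl
    rw [e1, e2, L_nat, L_nat]
    push_cast
    rfl
  have h3 : (2 : ℝ) ^ pairs B * L d ((1 + Polynomial.X) ^ (d - pairs B) *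
      (3 + (pairs B : ℝ[X]) * Polynomial.X)) ≤ 3 * 2 ^ d := by
    rcases Nat.eq_zero_or_pos (pairs B) with h | h
    · rw [h]
      have h4 := mom_zero hd
      unfold mom at h4
      have h7 : (0 : ℝ) < 2 ^ d := by positivity
      rw [div_le_one h7] at h4
      have h5 : (1 + Polynomial.X : ℝ[X]) ^ (d - 0) * (3 + ((0 : ℕ) : ℝ[X]) * Polynomial.X) =
          ((3 : ℕ) : ℝ[X]) * (1 + Polynomial.X) ^ (d - 0) := by
        push_cast
        ring
      rw [h5, L_nat]
      push_cast
      linarith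
    · rw [L_box h (pairs_le B)]
      have h6 : (2 : ℝ) ^ d = 2 ^ pairs B * 2 ^ (d - pairs B) := by
        rw [← pow_add, Nat.add_sub_cancel' (pairs_le B)]
      rw [h6]
      linarith
  have h4 : (0 : ℝ) < 3 ^ d := by positivity
  have h5 : (6 : ℝ) ^ d = 3 ^ d * 2 ^ d := by
    rw [← mul_pow]
    norm_num
  rw [h5]
  have h6 := mul_le_mul_of_nonneg_left h3 h4.le
  linarith

/-- **The bound.** -/
theorem main (hd : 1 ≤ d) {F : Multiset (Box 3 d)} (h : WC 3 d F 0) :
    2 * ∑ p ∈ Finset.range (d + 1), (d.choose p : ℝ) * mom d p ≤ (Multiset.card F : ℝ) := by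
  classical
  have key : ∑ T : Fin d → Bool × Fin 3, L d (V T * 2) ≤
      ∑ T : Fin d → Bool × Fin 3, L d (V T * ((S F (fun i => fn (T i)) : ℝ[X]) +
        2 * ∑ i, (C F (fun i => fn (T i)) i : ℝ[X]))) := by
    apply Finset.sum_le_sum
    intro T _
    have h1 := pointwise3 h (fun i => fn (T i))
    have h2 : S (0 : Multiset (Box 3 d)) (fun i => fn (T i)) = 0 := by
      unfold S
      simp
    rw [h2] at h1
    have h3 : V T * 2 = ((2 : ℕ) : ℝ[X]) * V T := by
      push_cast
      ring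
    have h4 : V T * ((S F (fun i => fn (T i)) : ℝ[X]) +
        2 * ∑ i, (C F (fun i => fn (T i)) i : ℝ[X])) =
        ((S F (fun i => fn (T i)) + 2 * ∑ i, C F (fun i => fn (T i)) i : ℕ) : ℝ[X]) *
          V T := by
      push_cast
      ring
    rw [h3, h4, L_nat, L_nat]
    apply mul_le_mul_of_nonneg_right _ (L_V_nonneg T)
    exact_mod_cast (by omega : 2 ≤ S F (fun i => fn (T i)) +
      2 * ∑ i, C F (fun i => fn (T i)) i)
  rw [← map_sum, ← map_sum, ← Finset.sum_mul, V_sum] at key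
  have e1 : ∑ T : Fin d → Bool × Fin 3, V T * ((S F (fun i => fn (T i)) : ℝ[X]) +
        2 * ∑ i, (C F (fun i => fn (T i)) i : ℝ[X])) = (F.map (fun B => Q B)).sum := by
    simp only [mul_add, Finset.sum_add_distrib]
    rw [V_S F h.pN]
    have e3 : ∑ T : Fin d → Bool × Fin 3,
        V T * (2 * ∑ i, (C F (fun i => fn (T i)) i : ℝ[X])) =
        2 * ∑ i, ∑ T : Fin d → Bool × Fin 3, V T * (C F (fun i => fn (T i)) i : ℝ[X]) := by
      rw [Finset.sum_comm, Finset.mul_sum]
      apply Finset.sum_congr rfl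
      intro T _
      rw [← Finset.mul_sum]
      ring
    have e4 : (F.map (fun B => ∑ i, qw (B i) * ∏ j ∈ Finset.univ.erase i, qo (B j))).sum =
        ∑ i, (F.map (fun B => qw (B i) * ∏ j ∈ Finset.univ.erase i, qo (B j))).sum := by
      clear * -
      induction F using Multiset.induction_on with
      | empty => simp
      | cons a s ih =>
        simp only [Multiset.map_cons, Multiset.sum_cons, Finset.sum_add_distrib]
        rw [ih]
    rw [e3, Finset.sum_congr rfl (fun i _ => V_C F h.pN i), ← e4]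
    unfold Q
    rw [Multiset.sum_map_add, Multiset.sum_map_mul_left]
  rw [e1] at key
  have e5 : L d ((F.map (fun B => Q B)).sum) ≤ (Multiset.card F : ℝ) * 6 ^ d := by
    rw [map_multiset_sum, Multiset.map_map]
    have := Multiset.sum_le_card_nsmul (F.map (L d ∘ fun B => Q B)) (6 ^ d) (by
      intro x hx
      obtain ⟨B, _, rfl⟩ := Multiset.mem_map.1 hx
      exact L_Q hd B)
    rw [Multiset.card_map, nsmul_eq_mul] at this
    exact this
  have e6 : L d (3 ^ d * (2 + (1 + Polynomial.X)) ^ d * 2) =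
      2 * (3 ^ d * (2 ^ d * ∑ p ∈ Finset.range (d + 1), (d.choose p : ℝ) * mom d p)) := by
    have f1 : (3 : ℝ[X]) ^ d * (2 + (1 + Polynomial.X)) ^ d * 2 =
        ((2 * 3 ^ d : ℕ) : ℝ[X]) * (2 + (1 + Polynomial.X)) ^ d := by
      push_cast
      ring
    rw [f1, L_nat, add_pow, map_sum]
    have f2 : ∀ p ∈ Finset.range (d + 1),
        L d (2 ^ p * (1 + Polynomial.X) ^ (d - p) * (d.choose p : ℝ[X])) =
        2 ^ d * ((d.choose p : ℝ) * mom d p) := by
      intro p _
      have f3 : (2 : ℝ[X]) ^ p * (1 + Polynomial.X) ^ (d - p) * (d.choose p : ℝ[X]) =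
          ((d.choose p : ℕ) : ℝ[X]) * (((2 ^ p : ℕ) : ℝ[X]) * (1 + Polynomial.X) ^ (d - p)) := by
        push_cast
        ring
      rw [f3, L_nat, L_nat]
      unfold mom
      push_cast
      field_simp
    rw [Finset.sum_congr rfl f2, ← Finset.mul_sum]
    push_cast
    ring
  rw [e6] at key
  have e7 := key.trans e5
  have h5 : (6 : ℝ) ^ d = 3 ^ d * 2 ^ d := by
    rw [← mul_pow]
    norm_num
  rw [h5] at e7
  have h6 : (0 : ℝ) < 3 ^ d * 2 ^ d := by positivity
  have e8 : (2 * ∑ p ∈ Finset.range (d + 1), (d.choose p : ℝ) * mom d p) * (3 ^ d * 2 ^ d) ≤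
      (Multiset.card F : ℝ) * (3 ^ d * 2 ^ d) := by linarith
  exact le_of_mul_le_mul_right e8 h6

end Pool.Agent.R182.TernarySmall
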